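import Pool.Agent.H516.PCF.All

set_option autoImplicit false

/-! The escape region of the nonrepelling fixed point infinity (MP_392fd3_nt). -/

namespace Pool.Agent.H94.PCF

open Polynomial
open Pool.Agent.H516.PCF

/-- the leading term dominates for `w x` very negative -/
theorem dominate {F : Type} [Field F] [CharZero F] [IsAlgClosed F] {p : ℕ} {w : F → ℝ} (hNAB : S_NAB)
    (hp : p.Prime) (hw : NA p w) : ∀ (N : ℕ) (U : F[X]), U.natDegree = N → U ≠ 0 → ∃ R : ℝ, 0 ≤ R ∧
      ∀ x, x ≠ 0 → w x < -R → U.eval x ≠ 0 ∧ w (U.eval x) = w U.leadingCoeff + U.natDegree * w x := by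
  obtain ⟨_, _, _, hpow, _, _, hadd, _⟩ := hNAB F p w hp hw
  intro N
  induction N using Nat.strong_induction_on with
  | _ N ih =>
    intro U hN hU
    have hl : U.leadingCoeff ≠ 0 := leadingCoeff_ne_zero.2 hU
    have hmon : ∀ x, x ≠ 0 → U.leadingCoeff * x ^ U.natDegree ≠ 0 ∧
        w (U.leadingCoeff * x ^ U.natDegree) = w U.leadingCoeff + U.natDegree * w x := by
      intro x hx
      have h1 : x ^ U.natDegree ≠ 0 := pow_ne_zero _ hx
      exact ⟨mul_ne_zero hl h1, by rw [hw.mul _ _ hl h1, hpow x hx]⟩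
    have hev : ∀ x, U.eval x = U.leadingCoeff * x ^ U.natDegree + U.eraseLead.eval x := by
      intro x
      conv_lhs => rw [← U.eraseLead_add_C_mul_X_pow]
      simp only [eval_add, eval_mul, eval_C, eval_pow, eval_X]
      ring
    by_cases h0 : U.eraseLead = 0
    · refine ⟨0, le_rfl, fun x hx _ => ?_⟩
      rw [hev x, h0, eval_zero, add_zero]
      exact hmon x hx
    · have hlt : U.eraseLead.natDegree < U.natDegree := by
        rcases U.eraseLead_natDegree_lt_or_eraseLead_eq_zero with h | h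
        · exact h
        · exact absurd h h0
      obtain ⟨R, hR0, hR⟩ := ih _ (by rw [← hN]; exact hlt) U.eraseLead rfl h0
      refine ⟨max R |w U.eraseLead.leadingCoeff - w U.leadingCoeff|, le_max_of_le_left hR0, ?_⟩
      intro x hx hxR
      have h1 : w x < -R := by
        have := le_max_left R |w U.eraseLead.leadingCoeff - w U.leadingCoeff|
        linarith
      have h2 : w x < -|w U.eraseLead.leadingCoeff - w U.leadingCoeff| := by
        have := le_max_right R |w U.eraseLead.leadingCoeff - w U.leadingCoeff|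
        linarith
      obtain ⟨g1, g2⟩ := hR x hx h1
      obtain ⟨f1, f2⟩ := hmon x hx
      have h3 := neg_abs_le (w U.eraseLead.leadingCoeff - w U.leadingCoeff)
      have h4 : ((U.eraseLead.natDegree : ℝ)) + 1 ≤ U.natDegree := by exact_mod_cast hlt
      have h5 : w (U.leadingCoeff * x ^ U.natDegree) < w (U.eraseLead.eval x) := by
        rw [f2, g2]
        nlinarith
      obtain ⟨k1, k2⟩ := hadd _ _ f1 g1 h5
      rw [hev x]
      exact ⟨k1, by rw [k2, f2]⟩

theorem esc (hNAB : S_NAB) : Pool.Agent.H516.PCF.S_ESC := by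
  intro F _ _ _ p w hp hw d P Q hn hrep
  obtain ⟨_, _, _, hpow, hdiv, _⟩ := hNAB F p w hp hw
  have hP0 : P ≠ 0 := by
    intro h
    have h1 := hn.degP
    have h2 := hn.two_le
    rw [h, natDegree_zero] at h1
    omega
  obtain ⟨R₁, hR₁0, hR₁⟩ := dominate hNAB hp hw _ P rfl hP0
  obtain ⟨R₂, hR₂0, hR₂⟩ := dominate hNAB hp hw _ Q rfl hn.Q0
  refine ⟨max (max R₁ R₂) |w P.leadingCoeff - w Q.leadingCoeff|, ?_⟩
  intro R hR x hx hxR
  have e1 : R₁ ≤ R := ((le_max_left _ _).trans (le_max_left _ _)).trans hR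
  have e2 : R₂ ≤ R := ((le_max_right _ _).trans (le_max_left _ _)).trans hR
  have e3 : |w P.leadingCoeff - w Q.leadingCoeff| ≤ R := (le_max_right _ _).trans hR
  obtain ⟨p1, p2⟩ := hR₁ x hx (by linarith)
  obtain ⟨q1, q2⟩ := hR₂ x hx (by linarith)
  refine ⟨q1, p1, ?_⟩
  rw [hdiv _ _ p1 q1, p2, q2, hn.degP]
  have hx0 : w x < 0 := by linarith
  rcases Nat.lt_or_ge (Q.natDegree + 1) d with h | h
  · have h1 : (Q.natDegree : ℝ) + 2 ≤ d := by exact_mod_cast h
    have h2 := le_abs_self (w P.leadingCoeff - w Q.leadingCoeff)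
    nlinarith
  · have h1 : Q.natDegree = d - 1 := by
      have := hn.degQ
      omega
    have h2 : (d : ℝ) = Q.natDegree + 1 := by
      have h3 := hn.two_le
      have : d = Q.natDegree + 1 := by omega
      exact_mod_cast this
    have h3 : Q.coeff (d - 1) = Q.leadingCoeff := by rw [← h1]; rfl
    rw [h3] at hrep
    have h4 : w P.leadingCoeff ≤ w Q.leadingCoeff := by
      rcases hrep with h | h
      · exact absurd h (leadingCoeff_ne_zero.2 hn.Q0)
      · exact h
    rw [h2]
    nlinarith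

end Pool.Agent.H94.PCF
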